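import Pool.Agent.H961.T4.Stm3
import Pool.Agent.H675.PN.Eng

/-!
# Project PN (helper961): ENH (helper675)
-/

set_option autoImplicit false

namespace Pool.Agent.H675.PN

open Finset Equiv Matrix Filter Topology Q292.LC Pool.Agent.H961.T2 Pool.Agent.H961.T3
open Pool.Agent.H961.T4

theorem quarter_step (k : ℕ) :
    ((k : ℝ) + 1) ^ (-(3 / 4) : ℝ) ≤ 4 * (((k : ℝ) + 1) ^ (1 / 4 : ℝ) - (k : ℝ) ^ (1 / 4 : ℝ)) := by
  have hk : (0 : ℝ) ≤ k := Nat.cast_nonneg k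
  have hk1 : (0 : ℝ) < (k : ℝ) + 1 := by linarith
  set a : ℝ := (k : ℝ) ^ (1 / 4 : ℝ) with ha
  set b : ℝ := ((k : ℝ) + 1) ^ (1 / 4 : ℝ) with hb
  have ha0 : 0 ≤ a := Real.rpow_nonneg hk _
  have hb0 : 0 < b := Real.rpow_pos_of_pos hk1 _
  have hab : a ≤ b := Real.rpow_le_rpow hk (by linarith) (by norm_num)
  have ha4 : a ^ 4 = k := by
    rw [ha, ← Real.rpow_natCast, ← Real.rpow_mul hk]
    norm_num
  have hb4 : b ^ 4 = k + 1 := by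
    rw [hb, ← Real.rpow_natCast, ← Real.rpow_mul hk1.le]
    norm_num
  have hb3 : ((k : ℝ) + 1) ^ (-(3 / 4) : ℝ) = 1 / b ^ 3 := by
    rw [Real.rpow_neg hk1.le, hb, ← Real.rpow_natCast, ← Real.rpow_mul hk1.le, one_div]
    norm_num
  rw [hb3, div_le_iff₀ (by positivity)]
  have h1 : (b - a) * (b ^ 3 + b ^ 2 * a + b * a ^ 2 + a ^ 3) = 1 := by
    have : (b - a) * (b ^ 3 + b ^ 2 * a + b * a ^ 2 + a ^ 3) = b ^ 4 - a ^ 4 := by ring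
    rw [this, ha4, hb4]
    ring
  have h2 : b ^ 3 + b ^ 2 * a + b * a ^ 2 + a ^ 3 ≤ 4 * b ^ 3 := by
    have e1 : b ^ 2 * a ≤ b ^ 2 * b := mul_le_mul_of_nonneg_left hab (by positivity)
    have e2 : b * a ^ 2 ≤ b * b ^ 2 :=
      mul_le_mul_of_nonneg_left (pow_le_pow_left₀ ha0 hab 2) hb0.le
    have e3 : a ^ 3 ≤ b ^ 3 := pow_le_pow_left₀ ha0 hab 3
    nlinarith
  have h3 : 0 ≤ b - a := by linarith
  calc (1 : ℝ) = (b - a) * (b ^ 3 + b ^ 2 * a + b * a ^ 2 + a ^ 3) := h1.symm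
    _ ≤ (b - a) * (4 * b ^ 3) := mul_le_mul_of_nonneg_left h2 h3
    _ = 4 * (b - a) * b ^ 3 := by ring

theorem quarter_sum (n : ℕ) :
    ∑ k ∈ range n, ((k : ℝ) + 1) ^ (-(3 / 4) : ℝ) ≤ 4 * (n : ℝ) ^ (1 / 4 : ℝ) := by
  induction n with
  | zero =>
    simp
  | succ n ih =>
    rw [sum_range_succ]
    have := quarter_step n
    push_cast
    linarith

theorem quarter_geom (w : ℝ) (h0 : 0 ≤ w) (h1 : w < 1) (n : ℕ) :
    ∑ k ∈ range n, w ^ (k + 1) * ((k : ℝ) + 1) ^ (-(3 / 4) : ℝ) ≤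
      5 * (1 / (1 - w)) ^ (1 / 4 : ℝ) := by
  obtain ⟨X, hX⟩ : ∃ X : ℝ, X = 1 / (1 - w) := ⟨_, rfl⟩
  have h1w : 0 < 1 - w := by linarith
  have hX1 : 1 ≤ X := by
    rw [hX, le_div_iff₀ h1w]
    linarith
  have hX0 : 0 < X := by linarith
  rw [← hX]
  have hp : ∀ k : ℕ, 0 ≤ ((k : ℝ) + 1) ^ (-(3 / 4) : ℝ) := fun k =>
    Real.rpow_nonneg (by positivity) _
  have hw1 : ∀ k : ℕ, w ^ (k + 1) ≤ 1 := fun k => pow_le_one₀ h0 h1.le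
  -- pointwise
  have hpt : ∀ k ∈ range n, w ^ (k + 1) * ((k : ℝ) + 1) ^ (-(3 / 4) : ℝ) ≤
      (if k < ⌊X⌋₊ then ((k : ℝ) + 1) ^ (-(3 / 4) : ℝ) else 0) + w ^ k * X ^ (-(3 / 4) : ℝ) := by
    intro k _
    have hX3 : 0 ≤ X ^ (-(3 / 4) : ℝ) := Real.rpow_nonneg hX0.le _
    by_cases hk : k < ⌊X⌋₊
    · rw [if_pos hk]
      have e1 : w ^ (k + 1) * ((k : ℝ) + 1) ^ (-(3 / 4) : ℝ) ≤ ((k : ℝ) + 1) ^ (-(3 / 4) : ℝ) :=
        mul_le_of_le_one_left (hp k) (hw1 k)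
      have e2 : 0 ≤ w ^ k * X ^ (-(3 / 4) : ℝ) := mul_nonneg (pow_nonneg h0 k) hX3
      linarith
    · rw [if_neg hk, zero_add]
      push Not at hk
      have e1 : X ≤ (k : ℝ) + 1 := by
        have := Nat.lt_floor_add_one X
        have h2 : (⌊X⌋₊ : ℝ) ≤ k := by exact_mod_cast hk
        linarith
      have e2 : ((k : ℝ) + 1) ^ (-(3 / 4) : ℝ) ≤ X ^ (-(3 / 4) : ℝ) :=
        Real.rpow_le_rpow_of_nonpos hX0 e1 (by norm_num)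
      exact mul_le_mul (pow_le_pow_of_le_one h0 h1.le (Nat.le_succ k)) e2 (hp k)
        (pow_nonneg h0 k)
  refine (sum_le_sum hpt).trans ?_
  rw [sum_add_distrib, ← sum_mul]
  have s1 : ∑ k ∈ range n, (if k < ⌊X⌋₊ then ((k : ℝ) + 1) ^ (-(3 / 4) : ℝ) else 0) ≤
      4 * X ^ (1 / 4 : ℝ) := by
    calc ∑ k ∈ range n, (if k < ⌊X⌋₊ then ((k : ℝ) + 1) ^ (-(3 / 4) : ℝ) else 0)
        ≤ ∑ k ∈ range (n + ⌊X⌋₊),
            (if k < ⌊X⌋₊ then ((k : ℝ) + 1) ^ (-(3 / 4) : ℝ) else 0) := by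
          refine sum_le_sum_of_subset_of_nonneg (range_subset_range.2 (Nat.le_add_right _ _)) ?_
          intro k _ _
          split_ifs
          · exact hp k
          · exact le_rfl
      _ = ∑ k ∈ range ⌊X⌋₊, ((k : ℝ) + 1) ^ (-(3 / 4) : ℝ) := by
          rw [← sum_filter]
          refine sum_congr ?_ fun _ _ => rfl
          ext k
          simp only [mem_filter, mem_range]
          omega
      _ ≤ 4 * (⌊X⌋₊ : ℝ) ^ (1 / 4 : ℝ) := quarter_sum _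
      _ ≤ 4 * X ^ (1 / 4 : ℝ) := by
          have := Real.rpow_le_rpow (Nat.cast_nonneg ⌊X⌋₊) (Nat.floor_le hX0.le)
            (by norm_num : (0 : ℝ) ≤ 1 / 4)
          linarith
  have s2 : (∑ k ∈ range n, w ^ k) * X ^ (-(3 / 4) : ℝ) ≤ X ^ (1 / 4 : ℝ) := by
    have e1 : ∑ k ∈ range n, w ^ k ≤ X := by
      have := geom_sum_Ico_le_of_lt_one (m := 0) (n := n) h0 h1
      rw [← range_eq_Ico, pow_zero] at this
      rw [hX]
      exact this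
    calc (∑ k ∈ range n, w ^ k) * X ^ (-(3 / 4) : ℝ) ≤ X * X ^ (-(3 / 4) : ℝ) :=
          mul_le_mul_of_nonneg_right e1 (Real.rpow_nonneg hX0.le _)
      _ = X ^ (1 / 4 : ℝ) := by
          nth_rw 1 [← Real.rpow_one X]
          rw [← Real.rpow_add hX0]
          norm_num
  linarith

theorem series' (w : ℝ) (h0 : 0 ≤ w) (h1 : w < 1) (b p : ℕ → ℝ) (E M : ℝ) (K : ℕ) (hE : 0 ≤ E)
    (hb : ∀ k < K, |b k - p k| ≤ ((k : ℝ) + 1) ^ (-(3 / 4) : ℝ) * E) (hp0 : ∀ k, 0 ≤ b k)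
    (hp : ∀ k, b k ≤ M) (hM : 0 ≤ M) (k₀ N : ℕ) (hk₀ : k₀ ≤ K) (hN : k₀ ≤ N) :
    |∑ k ∈ range N, w ^ (k + 1) * b k - ∑ k ∈ range k₀, w ^ (k + 1) * p k| ≤
      5 * (1 / (1 - w)) ^ (1 / 4 : ℝ) * E + M * w ^ k₀ / (1 - w) := by
  have e1 : ∑ k ∈ range N, w ^ (k + 1) * b k - ∑ k ∈ range k₀, w ^ (k + 1) * p k =
      ∑ k ∈ range k₀, w ^ (k + 1) * (b k - p k) + ∑ k ∈ Ico k₀ N, w ^ (k + 1) * b k := by
    have f1 := Finset.sum_range_add_sum_Ico (fun k => w ^ (k + 1) * b k) hN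
    simp only [mul_sub, sum_sub_distrib]
    linarith
  have e2 : |∑ k ∈ range k₀, w ^ (k + 1) * (b k - p k)| ≤
      5 * (1 / (1 - w)) ^ (1 / 4 : ℝ) * E := by
    calc |∑ k ∈ range k₀, w ^ (k + 1) * (b k - p k)|
        ≤ ∑ k ∈ range k₀, |w ^ (k + 1) * (b k - p k)| := abs_sum_le_sum_abs _ _
      _ ≤ ∑ k ∈ range k₀, (w ^ (k + 1) * ((k : ℝ) + 1) ^ (-(3 / 4) : ℝ)) * E := by
          refine sum_le_sum fun k hk => ?_
          rw [abs_mul, abs_of_nonneg (pow_nonneg h0 (k + 1)), mul_assoc]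
          exact mul_le_mul_of_nonneg_left (hb k ((mem_range.1 hk).trans_le hk₀))
            (pow_nonneg h0 _)
      _ = (∑ k ∈ range k₀, w ^ (k + 1) * ((k : ℝ) + 1) ^ (-(3 / 4) : ℝ)) * E := by rw [sum_mul]
      _ ≤ 5 * (1 / (1 - w)) ^ (1 / 4 : ℝ) * E :=
          mul_le_mul_of_nonneg_right (quarter_geom w h0 h1 k₀) hE
  have e3 : 0 ≤ ∑ k ∈ Ico k₀ N, w ^ (k + 1) * b k :=
    sum_nonneg fun k _ => mul_nonneg (pow_nonneg h0 _) (hp0 k)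
  have e4 : ∑ k ∈ Ico k₀ N, w ^ (k + 1) * b k ≤ M * w ^ k₀ / (1 - w) := by
    calc ∑ k ∈ Ico k₀ N, w ^ (k + 1) * b k ≤ ∑ k ∈ Ico k₀ N, w ^ k * M := by
          refine sum_le_sum fun k _ => ?_
          exact mul_le_mul (pow_le_pow_of_le_one h0 h1.le (Nat.le_succ k)) (hp k) (hp0 k)
            (pow_nonneg h0 k)
      _ = M * ∑ k ∈ Ico k₀ N, w ^ k := by rw [← sum_mul, mul_comm]
      _ ≤ M * (w ^ k₀ / (1 - w)) :=
          mul_le_mul_of_nonneg_left (geom_sum_Ico_le_of_lt_one h0 h1) hM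
      _ = M * w ^ k₀ / (1 - w) := by ring
  rw [e1]
  have g := abs_le.1 e2
  rw [abs_le]
  constructor <;> linarith [g.1, g.2]

theorem enh (hENM : Pool.Agent.H961.T4.S_ENM) : Pool.Agent.H961.T4.S_ENH := by
  intro d hd
  obtain ⟨C, m, hC, h⟩ := hENM d hd
  refine ⟨C, m + 2, hC, ?_⟩
  intro Z hZ L K lam r ρ κ₀ _ hlam hρ hκ hr hL hK hKL
  have hZ3 : 3 ≤ Z := hC.trans hZ
  have hZm : Z ^ m ≤ Z ^ (m + 2) := Nat.pow_le_pow_right (by omega) (by omega)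
  obtain ⟨q₀, hq₀⟩ := h Z hZ L K lam r ρ κ₀ hlam hρ hκ (hZm.trans hr)
    ((Nat.mul_le_mul_left 8 hZm).trans hL) (hZm.trans hK) hKL
  refine ⟨max q₀ 2, ?_⟩
  intro q hq σ hσ δ hδ1 hδ2 ω A hEv hInv w hw0 hw1 k₀ hk₀
  have hq1 : q₀ ≤ q := (le_max_left _ _).trans hq
  have hq2 : 2 ≤ q := (le_max_right _ _).trans hq
  have hq2' : (2 : ℝ) ≤ q := by exact_mod_cast hq2
  have hq0 : (0 : ℝ) < q := by linarith
  have hδ0 : 0 < δ := by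
    by_contra hh
    push Not at hh
    have := mul_nonpos_of_nonpos_of_nonneg hh hq0.le
    linarith
  have hδ1' : δ ≤ 1 := by
    by_contra hh
    push Not at hh
    nlinarith
  have hent := hq₀ q hq1 σ hσ δ hδ1 hδ2 ω A hEv hInv
  have hTT := Pool.Agent.Q68.LC.DS_TT (ed ∘ σ) ω A hδ0.le hδ1' (K * (q * ms d L))
  have hTB : BS (TT (ed ∘ σ) ω A δ (K * (q * ms d L))) := BS_of_DS hTT
  have hlim : Tendsto (fun N : ℕ => ∑ x ∈ univ \ A, ∑ k ∈ Finset.range N, w ^ (k + 1) *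
      (TT (ed ∘ σ) ω A δ (K * (q * ms d L)) *
        (dg (univ \ A) * TT (ed ∘ σ) ω A δ (K * (q * ms d L))) ^ k) x x) atTop
      (𝓝 (∑ x ∈ univ \ A, Gx w (univ \ A) (TT (ed ∘ σ) ω A δ (K * (q * ms d L))) x)) :=
    tendsto_finsetSum _ fun x hx =>
      Gx_tendsto w (univ \ A) _ x ⟨hTT.nn, fun x => (hTT.row x).le⟩ hw0 hw1 hx
  have hcard : (Fintype.card (Fin d → ZMod L) : ℝ) = (L : ℝ) ^ d := by
    rw [Fintype.card_fun, ZMod.card, Fintype.card_fin]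
    push_cast
    rfl
  have hE0 : 0 ≤ (Z : ℝ) ^ m * (K : ℝ) ^ (-(1 / 4) : ℝ) * (A.card + (L : ℝ) ^ d / K) := by
    positivity
  have hZ2 : (5 : ℝ) * ((Z : ℝ) ^ m * (K : ℝ) ^ (-(1 / 4) : ℝ) * (A.card + (L : ℝ) ^ d / K)) ≤
      (Z : ℝ) ^ (m + 2) * (K : ℝ) ^ (-(1 / 4) : ℝ) * (A.card + (L : ℝ) ^ d / K) := by
    have h3 : (3 : ℝ) ≤ Z := by exact_mod_cast hZ3
    have h5 : (5 : ℝ) ≤ (Z : ℝ) ^ 2 := by nlinarith
    calc (5 : ℝ) * ((Z : ℝ) ^ m * (K : ℝ) ^ (-(1 / 4) : ℝ) * (A.card + (L : ℝ) ^ d / K))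
        ≤ (Z : ℝ) ^ 2 * ((Z : ℝ) ^ m * (K : ℝ) ^ (-(1 / 4) : ℝ) * (A.card + (L : ℝ) ^ d / K)) :=
          mul_le_mul_of_nonneg_right h5 hE0
      _ = _ := by
          rw [pow_add]
          ring
  have hX0 : 0 ≤ (1 / (1 - w)) ^ (1 / 4 : ℝ) :=
    Real.rpow_nonneg (div_nonneg zero_le_one (by linarith)) _
  have hmain : |∑ x ∈ univ \ A, Gx w (univ \ A) (TT (ed ∘ σ) ω A δ (K * (q * ms d L))) x -
      ∑ k ∈ range k₀, w ^ (k + 1) * (PP (ed ∘ σ) δ (K * (q * ms d L)) ^ (k + 1)).trace| ≤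
      5 * (1 / (1 - w)) ^ (1 / 4 : ℝ) *
        ((Z : ℝ) ^ m * (K : ℝ) ^ (-(1 / 4) : ℝ) * (A.card + (L : ℝ) ^ d / K)) +
        (L : ℝ) ^ d * w ^ k₀ / (1 - w) := by
    refine le_of_tendsto (hlim.sub_const _).abs ?_
    filter_upwards [eventually_ge_atTop k₀] with N hN
    rw [sum_comm]
    simp only [← mul_sum]
    refine series' w hw0 hw1 _ _ _ ((L : ℝ) ^ d) K hE0 (fun k hk => hent k hk) (fun k => ?_)
      (fun k => ?_) (by positivity) k₀ N hk₀ hN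
    · rw [tr_dg]
      exact (BS_trace (BS_pow (BS_dg _ hTB) (k + 1))).1
    · rw [tr_dg, ← hcard]
      exact (BS_trace (BS_pow (BS_dg _ hTB) (k + 1))).2
  refine hmain.trans ?_
  have h6 := mul_le_mul_of_nonneg_left hZ2 hX0
  linarith

end Pool.Agent.H675.PN
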