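import Pool.Agent.H961.T4.StmA
import Pool.Graph.R_pool_sql_team_seeded_3997aac3.Q151.LC.Con2
import Pool.Graph.R_pool_sql_team_seeded_3997aac3.Q68.LC.Bas2

/-!
# Project PN (helper961): HSB (helper675)
-/

set_option autoImplicit false

namespace Pool.Agent.H675.PN

open Finset Equiv Matrix Q292.LC Pool.Agent.H961.T2 Pool.Agent.H961.T4

theorem hs_core {V : Type} [Fintype V] (n : ℕ) (S : Finset V) (D : V → V → ℝ)
    (X Y : ℕ → V → ℝ) (c w : ℕ → ℝ) (s : ℝ) (hs : 0 ≤ s)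
    (hD : ∀ x y, D x y = ∑ k ∈ range n, c k * (X k x * Y k y)) (hc : ∀ k, |c k| ≤ w k)
    (hX : ∀ k, ∑ x, |X k x| ≤ 2) (hDs : ∀ x ∈ S, ∀ y, |D x y| ≤ s) :
    ∑ x ∈ S, ∑ y, D x y ^ 2 ≤ ∑ k ∈ range n, w k * (2 * (s * ∑ y, |Y k y|)) := by
  have e1 : ∑ x ∈ S, ∑ y, D x y ^ 2 =
      ∑ k ∈ range n, c k * ∑ x ∈ S, X k x * ∑ y, D x y * Y k y := by
    have f1 : ∀ x y, D x y ^ 2 = ∑ k ∈ range n, c k * (X k x * (D x y * Y k y)) := by
      intro x y
      rw [sq]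
      nth_rw 2 [hD x y]
      rw [mul_sum]
      refine sum_congr rfl fun k _ => ?_
      ring
    simp only [f1]
    have f2 : ∀ x ∈ S, ∑ y, ∑ k ∈ range n, c k * (X k x * (D x y * Y k y)) =
        ∑ k ∈ range n, c k * (X k x * ∑ y, D x y * Y k y) := by
      intro x _
      rw [sum_comm]
      refine sum_congr rfl fun k _ => ?_
      rw [← mul_sum, ← mul_sum]
    rw [sum_congr rfl f2, sum_comm]
    refine sum_congr rfl fun k _ => ?_
    rw [← mul_sum]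
  rw [e1]
  refine sum_le_sum fun k _ => ?_
  have hY0 : 0 ≤ ∑ y, |Y k y| := sum_nonneg fun y _ => abs_nonneg _
  have g1 : ∀ x ∈ S, |∑ y, D x y * Y k y| ≤ s * ∑ y, |Y k y| := by
    intro x hx
    calc |∑ y, D x y * Y k y| ≤ ∑ y, |D x y * Y k y| := abs_sum_le_sum_abs _ _
      _ ≤ ∑ y, s * |Y k y| := by
          refine sum_le_sum fun y _ => ?_
          rw [abs_mul]
          exact mul_le_mul_of_nonneg_right (hDs x hx y) (abs_nonneg _)
      _ = s * ∑ y, |Y k y| := by rw [mul_sum]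
  have g2 : |∑ x ∈ S, X k x * ∑ y, D x y * Y k y| ≤ 2 * (s * ∑ y, |Y k y|) := by
    calc |∑ x ∈ S, X k x * ∑ y, D x y * Y k y| ≤ ∑ x ∈ S, |X k x * ∑ y, D x y * Y k y| :=
          abs_sum_le_sum_abs _ _
      _ ≤ ∑ x ∈ S, |X k x| * (s * ∑ y, |Y k y|) := by
          refine sum_le_sum fun x hx => ?_
          rw [abs_mul]
          exact mul_le_mul_of_nonneg_left (g1 x hx) (abs_nonneg _)
      _ = (∑ x ∈ S, |X k x|) * (s * ∑ y, |Y k y|) := by rw [sum_mul]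
      _ ≤ (∑ x, |X k x|) * (s * ∑ y, |Y k y|) := by
          refine mul_le_mul_of_nonneg_right ?_ (mul_nonneg hs hY0)
          exact sum_le_sum_of_subset_of_nonneg (subset_univ _) fun x _ _ => abs_nonneg _
      _ ≤ 2 * (s * ∑ y, |Y k y|) := mul_le_mul_of_nonneg_right (hX k) (mul_nonneg hs hY0)
  calc c k * ∑ x ∈ S, X k x * ∑ y, D x y * Y k y
      ≤ |c k * ∑ x ∈ S, X k x * ∑ y, D x y * Y k y| := le_abs_self _
    _ = |c k| * |∑ x ∈ S, X k x * ∑ y, D x y * Y k y| := abs_mul _ _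
    _ ≤ w k * (2 * (s * ∑ y, |Y k y|)) :=
        mul_le_mul (hc k) g2 (abs_nonneg _) ((abs_nonneg _).trans (hc k))

theorem hsb (hDUF : S_DUF) (hGRD : S_GRD) (hCWS : S_CWS) : S_HSB := by
  intro d hd
  obtain ⟨G, hG1, hG⟩ := hGRD d hd
  have hd' : (1 : ℝ) ≤ d := by exact_mod_cast hd
  refine ⟨16 * d * G, by nlinarith, ?_⟩
  intro L _ hL K
  obtain ⟨q₀, hq₀⟩ := hG L hL K
  refine ⟨max q₀ (4 * d + 2), ?_⟩
  intro q hq σ hσ δ hδ1 hδ2 ω A ρ s hJ hs hTs hPs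
  have hq1 : q₀ ≤ q := (le_max_left _ _).trans hq
  have hq2 : 4 * d + 2 ≤ q := (le_max_right _ _).trans hq
  have hq2' : (4 : ℝ) * d + 2 ≤ q := by exact_mod_cast hq2
  have hq0 : (0 : ℝ) < q := by linarith
  have hδ0 : 0 < δ := by
    by_contra h
    push Not at h
    have := mul_nonpos_of_nonpos_of_nonneg h hq0.le
    linarith
  have hδd : 2 * d * δ ≤ 1 := by
    by_contra h
    push Not at h
    have h1 : δ * (4 * d + 2) ≤ δ * q := mul_le_mul_of_nonneg_left hq2' hδ0.le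
    nlinarith
  have hδ1' : δ ≤ 1 := by nlinarith
  obtain ⟨c, hc, hcd⟩ := hDUF (Fin d → ZMod L) (ed ∘ σ) ω A δ (K * (q * ms d L)) hδ0.le hδ1'
  have hTT := Pool.Agent.Q68.LC.DS_TT (ed ∘ σ) ω A hδ0.le hδ1'
  have hPP := Pool.Agent.Q68.LC.DS_TT (ed ∘ σ) (fun _ => false) ∅ hδ0.le hδ1'
    (K * (q * ms d L))
  have hcore := hs_core (K * (q * ms d L)) (univ \ A)
    (fun x y => TT (ed ∘ σ) ω A δ (K * (q * ms d L)) x y -
      PP (ed ∘ σ) δ (K * (q * ms d L)) x y)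
    (fun k x => TT (ed ∘ σ) ω A δ k x ((ed ∘ σ) k).1 - TT (ed ∘ σ) ω A δ k x ((ed ∘ σ) k).2)
    (fun k y => PP (sh (k + 1) (ed ∘ σ)) δ (K * (q * ms d L) - (k + 1)) ((ed ∘ σ) k).1 y -
      PP (sh (k + 1) (ed ∘ σ)) δ (K * (q * ms d L) - (k + 1)) ((ed ∘ σ) k).2 y)
    c (cw (ed ∘ σ) ω A δ) s hs hcd hc
    (by
      intro k
      have hk := hTT k
      calc ∑ x, |TT (ed ∘ σ) ω A δ k x ((ed ∘ σ) k).1 - TT (ed ∘ σ) ω A δ k x ((ed ∘ σ) k).2|
          ≤ ∑ x, (TT (ed ∘ σ) ω A δ k x ((ed ∘ σ) k).1 +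
              TT (ed ∘ σ) ω A δ k x ((ed ∘ σ) k).2) := by
            refine sum_le_sum fun x _ => ?_
            rw [abs_le]
            have h1 := hk.nn x ((ed ∘ σ) k).1
            have h2 := hk.nn x ((ed ∘ σ) k).2
            constructor <;> linarith
        _ = 2 := by
            rw [sum_add_distrib, hk.col, hk.col]
            norm_num)
    (by
      intro x hx y
      have hx' : x ∉ A := (mem_sdiff.1 hx).2
      have h1 := (hTT (K * (q * ms d L))).nn x y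
      have h2 := hPP.nn x y
      have h3 := hTs x hx' y
      have h4 := hPs x y
      change 0 ≤ PP (ed ∘ σ) δ (K * (q * ms d L)) x y at h2
      rw [abs_le]
      constructor <;> linarith)
  refine hcore.trans ?_
  rw [Pool.Agent.Q151.LC.sum_units (q * ms d L) K]
  have hK : ∑ j ∈ range K, ∑ i ∈ range (q * ms d L),
      cw (ed ∘ σ) ω A δ (j * (q * ms d L) + i) *
        (2 * (s * ∑ y, |PP (sh (j * (q * ms d L) + i + 1) (ed ∘ σ)) δ
          (K * (q * ms d L) - (j * (q * ms d L) + i + 1)) ((ed ∘ σ) (j * (q * ms d L) + i)).1 y -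
          PP (sh (j * (q * ms d L) + i + 1) (ed ∘ σ)) δ
          (K * (q * ms d L) - (j * (q * ms d L) + i + 1))
            ((ed ∘ σ) (j * (q * ms d L) + i)).2 y|)) ≤
      ∑ j ∈ range K, ∑ i ∈ range (q * ms d L), (2 * s * G) *
        (cw (ed ∘ σ) ω A δ (j * (q * ms d L) + i) / Real.sqrt ((K : ℝ) - j)) := by
    refine sum_le_sum fun j hj => sum_le_sum fun i hi => ?_
    have h1 := hq₀ q hq1 σ hσ δ hδ1 hδ2 j (mem_range.1 hj) i (mem_range.1 hi)
      (σ (j * (q * ms d L) + i))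
    have h2 : 0 ≤ cw (ed ∘ σ) ω A δ (j * (q * ms d L) + i) := (abs_nonneg _).trans (hc _)
    calc cw (ed ∘ σ) ω A δ (j * (q * ms d L) + i) *
        (2 * (s * ∑ y, |PP (sh (j * (q * ms d L) + i + 1) (ed ∘ σ)) δ
          (K * (q * ms d L) - (j * (q * ms d L) + i + 1)) ((ed ∘ σ) (j * (q * ms d L) + i)).1 y -
          PP (sh (j * (q * ms d L) + i + 1) (ed ∘ σ)) δ
          (K * (q * ms d L) - (j * (q * ms d L) + i + 1))
            ((ed ∘ σ) (j * (q * ms d L) + i)).2 y|))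
        ≤ cw (ed ∘ σ) ω A δ (j * (q * ms d L) + i) *
          (2 * (s * (G / Real.sqrt ((K : ℝ) - j)))) :=
          mul_le_mul_of_nonneg_left (mul_le_mul_of_nonneg_left
            (mul_le_mul_of_nonneg_left h1 hs) (by norm_num)) h2
      _ = (2 * s * G) * (cw (ed ∘ σ) ω A δ (j * (q * ms d L) + i) /
            Real.sqrt ((K : ℝ) - j)) := by ring
  refine hK.trans ?_
  simp only [← mul_sum]
  have hcws := hCWS d L hd hL σ hσ ω A δ q K ρ hδ0 hδd hδ2 hJ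
  have hsG : 0 ≤ 2 * s * G := by
    have : 0 ≤ G := by linarith
    positivity
  refine (mul_le_mul_of_nonneg_left hcws hsG).trans ?_
  have hρ : (0 : ℝ) ≤ ρ := Nat.cast_nonneg _
  have h1 : (4 * (ρ : ℝ) + 8 * d) ≤ 8 * d * (ρ + 1) := by nlinarith
  have h2 : 0 ≤ Real.sqrt K * A.card := mul_nonneg (Real.sqrt_nonneg _) (Nat.cast_nonneg _)
  calc 2 * s * G * ((4 * ρ + 8 * d) * Real.sqrt K * A.card)
      = 2 * s * G * (Real.sqrt K * A.card) * (4 * ρ + 8 * d) := by ring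
    _ ≤ 2 * s * G * (Real.sqrt K * A.card) * (8 * d * (ρ + 1)) :=
        mul_le_mul_of_nonneg_left h1 (mul_nonneg hsG h2)
    _ = 16 * d * G * (ρ + 1) * Real.sqrt K * s * A.card := by ring

end Pool.Agent.H675.PN
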