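import Pool.Agent.H961.T4.StmA

/-!
# Project PN (helper961): TRH (helper675)
-/

set_option autoImplicit false
set_option linter.unusedSectionVars false

namespace Pool.Agent.H675.PN

open Finset Equiv Matrix Q292.LC Pool.Agent.H961.T2 Pool.Agent.H961.T4

variable {V : Type} [Fintype V] [DecidableEq V]

theorem dg_mul_apply (U : Finset V) (D : Matrix V V ℝ) (x y : V) :
    (dg U * D) x y = if x ∈ U then D x y else 0 := by
  unfold dg
  rw [Matrix.diagonal_mul]
  split_ifs <;> ring

theorem tr_dgl (U : Finset V) (D W : Matrix V V ℝ) :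
    ((dg U * D) * W).trace = ∑ x ∈ U, ∑ y, D x y * W y x := by
  rw [tr_mul]
  have h1 : ∀ x, ∑ y, (dg U * D) x y * W y x = if x ∈ U then ∑ y, D x y * W y x else 0 := by
    intro x
    by_cases hx : x ∈ U
    · rw [if_pos hx]
      refine sum_congr rfl fun y _ => ?_
      rw [dg_mul_apply, if_pos hx]
    · rw [if_neg hx]
      refine sum_eq_zero fun y _ => ?_
      rw [dg_mul_apply, if_neg hx, zero_mul]
  rw [sum_congr rfl fun x _ => h1 x, ← sum_filter]
  refine sum_congr ?_ fun _ _ => rfl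
  ext x
  simp

/-- Cauchy-Schwarz -/
theorem cs (U : Finset V) (D W : Matrix V V ℝ) (s h : ℝ) (hW : BS W) (hs0 : 0 ≤ s)
    (hs : ∀ y x, W y x ≤ s) (hh : 0 ≤ h) (hD : ∑ x ∈ U, ∑ y, D x y ^ 2 ≤ h) :
    |∑ x ∈ U, ∑ y, D x y * W y x| ≤ Real.sqrt (h * (s * Fintype.card V)) := by
  refine Real.abs_le_sqrt ?_
  have h1 := Finset.sum_mul_sq_le_sq_mul_sq (U ×ˢ (univ : Finset V))
    (fun q => D q.1 q.2) (fun q => W q.2 q.1)
  rw [sum_product, sum_product, sum_product] at h1
  refine h1.trans ?_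
  have h2 : ∑ x ∈ U, ∑ y, W y x ^ 2 ≤ s * Fintype.card V := by
    calc ∑ x ∈ U, ∑ y, W y x ^ 2 ≤ ∑ x, ∑ y, W y x ^ 2 :=
          sum_le_sum_of_subset_of_nonneg (subset_univ _)
            fun x _ _ => sum_nonneg fun y _ => sq_nonneg _
      _ ≤ ∑ x, ∑ y, s * W y x := by
          refine sum_le_sum fun x _ => sum_le_sum fun y _ => ?_
          rw [sq]
          exact mul_le_mul_of_nonneg_right (hs y x) (hW.nn y x)
      _ = s * ∑ y, ∑ x, W y x := by
          rw [sum_comm, mul_sum]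
          refine sum_congr rfl fun y _ => ?_
          rw [mul_sum]
      _ ≤ s * ∑ y : V, (1 : ℝ) :=
          mul_le_mul_of_nonneg_left (sum_le_sum fun y _ => hW.row y) hs0
      _ = s * Fintype.card V := by
          rw [sum_const, card_univ, nsmul_eq_mul, mul_one]
  have h3 : 0 ≤ ∑ x ∈ U, ∑ y, W y x ^ 2 := sum_nonneg fun x _ => sum_nonneg fun y _ => sq_nonneg _
  exact mul_le_mul hD h2 h3 hh

/-- one step -/
theorem step (U U1 : Finset V) (T1 T2 P1 P2 H : Matrix V V ℝ) (s h : ℝ) (hT1 : BS T1)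
    (hP1 : BS P1) (hP2 : BS P2) (hH : BS H)
    (hU : ∀ x ∈ U, ∀ y, y ∉ U1 → T1 x y = 0) (hs : 0 ≤ s) (hh : 0 ≤ h)
    (hT1s : ∀ x ∈ U, ∀ y, T1 x y ≤ s) (hP1s : ∀ x y, P1 x y ≤ s) (hP2s : ∀ x y, P2 x y ≤ s)
    (h1 : ∑ x ∈ U, ∑ y, (T1 x y - P1 x y) ^ 2 ≤ h)
    (h2 : ∑ x ∈ U1, ∑ y, (T2 x y - P2 x y) ^ 2 ≤ h) :
    |((dg U * (T1 * T2)) * H).trace - ((P1 * P2) * H).trace| ≤
      2 * Real.sqrt (h * (s * Fintype.card V)) + s * (univ \ U).card := by
  have hW := BS_mul hP2 hH
  have hW' := BS_mul hH (BS_dg U hT1)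
  -- the first part
  have a1 : |((dg U * (T1 - P1)) * (P2 * H)).trace| ≤ Real.sqrt (h * (s * Fintype.card V)) := by
    rw [tr_dgl]
    refine cs U (T1 - P1) (P2 * H) s h hW hs ?_ hh ?_
    · intro y x
      rw [Matrix.mul_apply]
      calc ∑ z, P2 y z * H z x ≤ ∑ z, s * H z x :=
            sum_le_sum fun z _ => mul_le_mul_of_nonneg_right (hP2s y z) (hH.nn _ _)
        _ = s * ∑ z, H z x := by rw [mul_sum]
        _ ≤ s * 1 := mul_le_mul_of_nonneg_left (hH.col x) hs
        _ = s := mul_one _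
    · simpa only [Matrix.sub_apply] using h1
  -- the second part
  have a2 : 0 ≤ ((dg (univ \ U) * P1) * (P2 * H)).trace ∧
      ((dg (univ \ U) * P1) * (P2 * H)).trace ≤ s * (univ \ U).card := by
    rw [tr_dgl]
    constructor
    · exact sum_nonneg fun x _ => sum_nonneg fun y _ => mul_nonneg (hP1.nn _ _) (hW.nn _ _)
    · calc ∑ x ∈ univ \ U, ∑ y, P1 x y * (P2 * H) y x ≤ ∑ x ∈ univ \ U, s := by
            refine sum_le_sum fun x _ => ?_
            calc ∑ y, P1 x y * (P2 * H) y x ≤ ∑ y, s * (P2 * H) y x :=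
                  sum_le_sum fun y _ => mul_le_mul_of_nonneg_right (hP1s x y) (hW.nn _ _)
              _ = s * ∑ y, (P2 * H) y x := by rw [mul_sum]
              _ ≤ s * 1 := mul_le_mul_of_nonneg_left (hW.col x) hs
              _ = s := mul_one _
        _ = s * (univ \ U).card := by rw [sum_const, nsmul_eq_mul, mul_comm]
  -- the third part
  have a3 : |((T2 - P2) * (H * (dg U * T1))).trace| ≤ Real.sqrt (h * (s * Fintype.card V)) := by
    have e1 : ((T2 - P2) * (H * (dg U * T1))).trace =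
        ∑ x ∈ U1, ∑ y, (T2 - P2) x y * (H * (dg U * T1)) y x := by
      rw [tr_mul]
      symm
      refine sum_subset (subset_univ _) fun x _ hx => ?_
      refine sum_eq_zero fun y _ => ?_
      have : (H * (dg U * T1)) y x = 0 := by
        rw [Matrix.mul_apply]
        refine sum_eq_zero fun z _ => ?_
        rw [dg_mul_apply]
        by_cases hz : z ∈ U
        · rw [if_pos hz, hU z hz x hx, mul_zero]
        · rw [if_neg hz, mul_zero]
      rw [this, mul_zero]
    rw [e1]
    refine cs U1 (T2 - P2) (H * (dg U * T1)) s h hW' hs ?_ hh ?_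
    · intro y x
      rw [Matrix.mul_apply]
      calc ∑ z, H y z * (dg U * T1) z x ≤ ∑ z, H y z * s := by
            refine sum_le_sum fun z _ => mul_le_mul_of_nonneg_left ?_ (hH.nn _ _)
            rw [dg_mul_apply]
            by_cases hz : z ∈ U
            · rw [if_pos hz]
              exact hT1s z hz x
            · rw [if_neg hz]
              exact hs
        _ = (∑ z, H y z) * s := by rw [sum_mul]
        _ ≤ 1 * s := mul_le_mul_of_nonneg_right (hH.row y) hs
        _ = s := one_mul _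
    · simpa only [Matrix.sub_apply] using h2
  -- the decomposition
  have e0 : P1 = dg U * P1 + dg (univ \ U) * P1 := by
    ext x y
    rw [Matrix.add_apply, dg_mul_apply, dg_mul_apply]
    by_cases hx : x ∈ U
    · rw [if_pos hx, if_neg (by simp [hx]), add_zero]
    · rw [if_neg hx, if_pos (by simp [hx]), zero_add]
  have e2 : ((dg U * (T1 * T2)) * H).trace - ((P1 * P2) * H).trace =
      ((dg U * (T1 - P1)) * (P2 * H)).trace - ((dg (univ \ U) * P1) * (P2 * H)).trace +
        ((T2 - P2) * (H * (dg U * T1))).trace := by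
    have f1 : ((T2 - P2) * (H * (dg U * T1))).trace = ((dg U * T1) * ((T2 - P2) * H)).trace := by
      rw [← Matrix.mul_assoc, Matrix.trace_mul_comm]
    have f2 : (P1 * P2) * H = (dg U * P1) * (P2 * H) + (dg (univ \ U) * P1) * (P2 * H) := by
      rw [← Matrix.add_mul, ← e0, Matrix.mul_assoc]
    have f3 : (dg U * (T1 * T2)) * H = (dg U * T1) * ((T2 - P2) * H) +
        (dg U * (T1 - P1)) * (P2 * H) + (dg U * P1) * (P2 * H) := by
      simp only [Matrix.mul_sub, Matrix.sub_mul, Matrix.mul_assoc]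
      abel
    rw [f1, f2, f3, Matrix.trace_add, Matrix.trace_add, Matrix.trace_add]
    ring
  rw [e2]
  have b1 := abs_le.1 a1
  have b3 := abs_le.1 a3
  rw [abs_le]
  constructor <;> linarith [a2.1, a2.2, b1.1, b1.2, b3.1, b3.2]

theorem trh : S_TRH := by
  intro V _ _ U U1 T1 T2 P1 P2 s h hT1 hT2 hP1 hP2 hU hs hh hT1s hP1s hP2s h1 h2 j
  have hM := BS_dg U (BS_mul hT1 hT2)
  have hP := BS_mul hP1 hP2
  have key : ∀ r i : ℕ, |((dg U * (T1 * T2)) ^ r * (P1 * P2) ^ i).trace -
      ((P1 * P2) ^ (r + i)).trace| ≤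
      (r : ℝ) * (2 * Real.sqrt (h * (s * Fintype.card V)) + s * (univ \ U).card) := by
    intro r
    induction r with
    | zero =>
      intro i
      rw [pow_zero, Matrix.one_mul, Nat.zero_add, sub_self, abs_zero]
      simp
    | succ r ih =>
      intro i
      have e1 : ((dg U * (T1 * T2)) ^ (r + 1) * (P1 * P2) ^ i).trace =
          ((dg U * (T1 * T2)) * ((dg U * (T1 * T2)) ^ r * (P1 * P2) ^ i)).trace := by
        rw [pow_succ', Matrix.mul_assoc (dg U * (T1 * T2))]
      have e2 : ((P1 * P2) * ((dg U * (T1 * T2)) ^ r * (P1 * P2) ^ i)).trace =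
          ((dg U * (T1 * T2)) ^ r * (P1 * P2) ^ (i + 1)).trace := by
        rw [Matrix.trace_mul_comm, Matrix.mul_assoc, ← pow_succ]
      have e3 := step U U1 T1 T2 P1 P2 ((dg U * (T1 * T2)) ^ r * (P1 * P2) ^ i) s h hT1 hP1 hP2
        (BS_mul (BS_pow hM r) (BS_pow hP i)) hU hs hh hT1s hP1s hP2s h1 h2
      have e4 := ih (i + 1)
      have e5 : r + 1 + i = r + (i + 1) := by omega
      rw [e2] at e3
      rw [e1, e5]
      push_cast
      have g1 := abs_le.1 e3
      have g2 := abs_le.1 e4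
      rw [abs_le]
      constructor <;> linarith [g1.1, g1.2, g2.1, g2.2]
  have := key (j + 1) 0
  rw [pow_zero, Matrix.mul_one, Nat.add_zero] at this
  push_cast at this
  exact this

end Pool.Agent.H675.PN
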