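import Pool.Agent.H961.T4.Stm3
import Pool.Agent.H675.PN.Trh

/-!
# Project PN (helper961): TRM (helper675)
-/

set_option autoImplicit false
set_option linter.unusedSectionVars false

namespace Pool.Agent.H675.PN

open Finset Equiv Matrix Q292.LC Pool.Agent.H961.T2 Pool.Agent.H961.T4

variable {V : Type} [Fintype V] [DecidableEq V]

/-- the columns outside `U` of the powers vanish -/
theorem pow_col (U : Finset V) (T : Matrix V V ℝ) (hU : ∀ x ∈ U, ∀ y, y ∉ U → T x y = 0)
    (i : ℕ) (hi : 1 ≤ i) (y x : V) (hx : x ∉ U) : ((dg U * T) ^ i) y x = 0 := by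
  obtain ⟨k, rfl⟩ : ∃ k, i = k + 1 := ⟨i - 1, by omega⟩
  rw [pow_succ, Matrix.mul_apply]
  refine sum_eq_zero fun z _ => ?_
  rw [dg_mul_apply]
  by_cases hz : z ∈ U
  · rw [if_pos hz, hU z hz x hx, mul_zero]
  · rw [if_neg hz, mul_zero]

/-- the rows outside `U` of the powers vanish -/
theorem pow_row (U : Finset V) (T : Matrix V V ℝ) (i : ℕ) (hi : 1 ≤ i) (y x : V) (hy : y ∉ U) :
    ((dg U * T) ^ i) y x = 0 := by
  obtain ⟨k, rfl⟩ : ∃ k, i = k + 1 := ⟨i - 1, by omega⟩
  rw [pow_succ', Matrix.mul_assoc, dg_mul_apply, if_neg hy]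

theorem trm : S_TRM := by
  intro V _ _ U T P s h i i' hT hP hi hi' hU hs hh hM1 hM2 hP1 hP2 h1 h2
  have hM := BS_dg U hT
  have hMi' := BS_pow hM i'
  have hPi := BS_pow hP i
  have hPi' := BS_pow hP i'
  -- the first product
  have a1 : |(((dg U * T) ^ i - P ^ i) * (dg U * T) ^ i').trace| ≤
      Real.sqrt (h * (s * Fintype.card V)) := by
    have e1 : (((dg U * T) ^ i - P ^ i) * (dg U * T) ^ i').trace =
        ∑ x ∈ U, ∑ y, ((dg U * T) ^ i - P ^ i) x y * ((dg U * T) ^ i') y x := by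
      rw [tr_mul]
      symm
      refine sum_subset (subset_univ _) fun x _ hx => ?_
      refine sum_eq_zero fun y _ => ?_
      rw [pow_col U T hU i' hi' y x hx, mul_zero]
    rw [e1]
    refine cs U _ _ s h hMi' hs (fun y x => hM2 y x) hh ?_
    simpa only [Matrix.sub_apply] using h1
  -- the second product
  have e2 : (P ^ i * ((dg U * T) ^ i' - P ^ i')).trace =
      ∑ y ∈ U, ∑ x, ((dg U * T) ^ i' - P ^ i') y x * (P ^ i) x y -
        ∑ y ∈ univ \ U, ∑ x, (P ^ i') y x * (P ^ i) x y := by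
    rw [Matrix.trace_mul_comm, tr_mul, ← sum_sdiff (subset_univ U)]
    have : ∑ y ∈ univ \ U, ∑ x, ((dg U * T) ^ i' - P ^ i') y x * (P ^ i) x y =
        - ∑ y ∈ univ \ U, ∑ x, (P ^ i') y x * (P ^ i) x y := by
      rw [← sum_neg_distrib]
      refine sum_congr rfl fun y hy => ?_
      rw [← sum_neg_distrib]
      refine sum_congr rfl fun x _ => ?_
      rw [Matrix.sub_apply, pow_row U T i' hi' y x (mem_sdiff.1 hy).2]
      ring
    rw [this]
    ring
  have a2 : |∑ y ∈ U, ∑ x, ((dg U * T) ^ i' - P ^ i') y x * (P ^ i) x y| ≤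
      Real.sqrt (h * (s * Fintype.card V)) := by
    refine cs U _ _ s h hPi hs (fun y x => hP1 y x) hh ?_
    simpa only [Matrix.sub_apply] using h2
  have a3 : 0 ≤ ∑ y ∈ univ \ U, ∑ x, (P ^ i') y x * (P ^ i) x y :=
    sum_nonneg fun y _ => sum_nonneg fun x _ => mul_nonneg (hPi'.nn _ _) (hPi.nn _ _)
  have a4 : ∑ y ∈ univ \ U, ∑ x, (P ^ i') y x * (P ^ i) x y ≤ s * (univ \ U).card := by
    calc ∑ y ∈ univ \ U, ∑ x, (P ^ i') y x * (P ^ i) x y ≤ ∑ y ∈ univ \ U, s := by
          refine sum_le_sum fun y _ => ?_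
          calc ∑ x, (P ^ i') y x * (P ^ i) x y ≤ ∑ x, s * (P ^ i) x y :=
                sum_le_sum fun x _ => mul_le_mul_of_nonneg_right (hP2 y x) (hPi.nn _ _)
            _ = s * ∑ x, (P ^ i) x y := by rw [mul_sum]
            _ ≤ s * 1 := mul_le_mul_of_nonneg_left (hPi.col y) hs
            _ = s := mul_one _
      _ = s * (univ \ U).card := by rw [sum_const, nsmul_eq_mul, mul_comm]
  have e3 : ((dg U * T) ^ (i + i')).trace - (P ^ (i + i')).trace =
      (((dg U * T) ^ i - P ^ i) * (dg U * T) ^ i').trace +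
        (P ^ i * ((dg U * T) ^ i' - P ^ i')).trace := by
    rw [← Matrix.trace_add, ← Matrix.trace_sub]
    congr 1
    rw [pow_add, pow_add, Matrix.sub_mul, Matrix.mul_sub]
    abel
  rw [e3, e2]
  have b1 := abs_le.1 a1
  have b2 := abs_le.1 a2
  rw [abs_le]
  constructor <;> linarith [b1.1, b1.2, b2.1, b2.2]

end Pool.Agent.H675.PN
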